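import Pool.Agent.Helper21.D2.Stmts
import Pool.Agent.Helper82.AHS.Ten
import Pool.Agent.Helper8.MT.StA
import Pool.Agent.Helper84.MT.StI

/-!
# D2, module TNT: tensors killed by the skew matrices are fixed by the isometries
-/

set_option autoImplicit false

open Matrix MvPolynomial

namespace Pool.Agent.Helper84.D2

open MT

theorem deriv_prod {K₀ : Type} [Field K₀] {A : Type} [CommRing A] [Algebra K₀ A]
    (D : Derivation K₀ A A) {ι : Type} [DecidableEq ι] (s : Finset ι) (f : ι → A) :
    D (∏ k ∈ s, f k) = ∑ k ∈ s, (∏ k' ∈ s.erase k, f k') * D (f k) := by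
  induction s using Finset.induction_on with
  | empty => simp
  | insert a s ha ih =>
    rw [Finset.prod_insert ha, Derivation.leibniz, ih, Finset.sum_insert ha,
      Finset.erase_insert ha, smul_eq_mul, smul_eq_mul, add_comm]
    congr 1
    rw [Finset.mul_sum]
    refine Finset.sum_congr rfl fun k hk => ?_
    have hka : k ≠ a := fun h => ha (h ▸ hk)
    rw [Finset.erase_insert_of_ne (Ne.symm hka), Finset.prod_insert (by simp [ha]), mul_assoc]

theorem sum_off {n a : ℕ} {A : Type} [AddCommMonoid A] (i : Fin a → Fin n) (s : Fin a)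
    (f : (Fin a → Fin n) → A) :
    (∑ i' : Fin a → Fin n, if i' = Function.update i s (i' s) then f i' else 0) =
      ∑ k, f (Function.update i s k) := by
  classical
  rw [← Finset.sum_filter]
  have h1 : (Finset.univ.filter fun i' : Fin a → Fin n => i' = Function.update i s (i' s)) =
      Finset.univ.image fun k => Function.update i s k := by
    ext i'
    simp only [Finset.mem_filter, Finset.mem_univ, true_and, Finset.mem_image]
    constructor
    · intro h
      exact ⟨i' s, h.symm⟩
    · rintro ⟨k, rfl⟩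
      rw [Function.update_self]
  rw [h1, Finset.sum_image fun x _ y _ h => Function.update_injective i s h]

theorem off_comm {n a : ℕ} (i i' : Fin a → Fin n) (s : Fin a) :
    i' = Function.update i s (i' s) ↔ i = Function.update i' s (i s) := by
  constructor
  · intro h
    rw [h]
    funext k
    by_cases hk : k = s
    · subst hk; rw [Function.update_self]
    · rw [Function.update_of_ne hk, Function.update_of_ne hk]
  · intro h
    rw [h]
    funext k
    by_cases hk : k = s
    · subst hk; rw [Function.update_self]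
    · rw [Function.update_of_ne hk, Function.update_of_ne hk]

/-- the derivation of the tensor power -/
def dtp {R : Type} [CommRing R] {n : ℕ} (a : ℕ) (M : Matrix (Fin n) (Fin n) R) :
    Matrix (Fin a → Fin n) (Fin a → Fin n) R :=
  fun i i' => ∑ s, if i' = Function.update i s (i' s) then M (i s) (i' s) else 0

theorem ldv_prod {K₀ : Type} [Field K₀] {n a : ℕ} (M : Matrix (Fin n) (Fin n) K₀)
    (i i' : Fin a → Fin n) :
    ldv M (∏ k, X (i k, i' k) : MvPolynomial (Fin n × Fin n) K₀) =
      ∑ i'' : Fin a → Fin n, (∏ k, X (i k, i'' k)) * C (dtp a M i'' i') := by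
  classical
  rw [deriv_prod]
  unfold dtp
  simp only [map_sum, Finset.mul_sum]
  rw [Finset.sum_comm]
  refine Finset.sum_congr rfl fun s _ => ?_
  have h1 := sum_off i' s (fun i'' => (∏ k, (X (i k, i'' k) : MvPolynomial (Fin n × Fin n) K₀)) *
    C (M (i'' s) (i' s)))
  have h2 : ∀ i'' : Fin a → Fin n,
      (∏ k, (X (i k, i'' k) : MvPolynomial (Fin n × Fin n) K₀)) *
        C (if i' = Function.update i'' s (i' s) then M (i'' s) (i' s) else 0) =
      if i'' = Function.update i' s (i'' s) then
        (∏ k, (X (i k, i'' k) : MvPolynomial (Fin n × Fin n) K₀)) * C (M (i'' s) (i' s))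
      else 0 := by
    intro i''
    by_cases h : i'' = Function.update i' s (i'' s)
    · rw [if_pos h, if_pos ((off_comm i' i'' s).mp h)]
    · rw [if_neg h, if_neg (fun h' => h ((off_comm i' i'' s).mpr h')), map_zero, mul_zero]
  rw [Finset.sum_congr rfl fun i'' _ => h2 i'', h1]
  unfold ldv
  rw [mkDerivation_X, Finset.mul_sum]
  refine Finset.sum_congr rfl fun k _ => ?_
  rw [Function.update_self, ← mul_assoc]
  congr 1
  rw [← Finset.mul_prod_erase Finset.univ _ (Finset.mem_univ s), Function.update_self, mul_comm]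
  congr 1
  refine Finset.prod_congr rfl fun k' hk' => ?_
  rw [Function.update_of_ne (Finset.ne_of_mem_erase hk')]

theorem ldv_mul_C {K₀ : Type} [Field K₀] {n : ℕ} (M : Matrix (Fin n) (Fin n) K₀)
    (f : MvPolynomial (Fin n × Fin n) K₀) (c : K₀) : ldv M (f * C c) = ldv M f * C c := by
  rw [Derivation.leibniz]
  have h1 : ldv M (C c : MvPolynomial (Fin n × Fin n) K₀) = 0 := (ldv M).map_algebraMap c
  rw [h1, smul_zero, zero_add, smul_eq_mul, mul_comm]

theorem ldv_tenEq {K₀ : Type} [Field K₀] {n a b : ℕ} (M : Matrix (Fin n) (Fin n) K₀)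
    (t : Matrix (Fin a → Fin n) (Fin b → Fin n) K₀) (ht : dtp a M * t = t * dtp b M)
    (i : Fin a → Fin n) (j : Fin b → Fin n) :
    ldv M (tenEq t i j) = ∑ j', tenEq t i j' * C (dtp b M j' j) := by
  unfold tenEq
  rw [map_sub, map_sum, map_sum]
  simp only [sub_mul, Finset.sum_sub_distrib]
  congr 1
  · simp only [ldv_mul_C, ldv_prod, Finset.sum_mul]
    rw [Finset.sum_comm]
    rw [Finset.sum_comm (s := (Finset.univ : Finset (Fin b → Fin n)))]
    refine Finset.sum_congr rfl fun i'' _ => ?_
    have h1 := congrFun (congrFun ht i'') j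
    rw [Matrix.mul_apply, Matrix.mul_apply] at h1
    have h2 := congrArg (C : K₀ → MvPolynomial (Fin n × Fin n) K₀) h1
    rw [map_sum, map_sum] at h2
    have h3 : ∀ x : Fin a → Fin n, (∏ k, (X (i k, i'' k) : MvPolynomial (Fin n × Fin n) K₀)) *
        C (dtp a M i'' x) * C (t x j) = (∏ k, X (i k, i'' k)) * C (dtp a M i'' x * t x j) := by
      intro x
      rw [C_mul, mul_assoc]
    have h4 : ∀ x : Fin b → Fin n, (∏ k, (X (i k, i'' k) : MvPolynomial (Fin n × Fin n) K₀)) *
        C (t i'' x) * C (dtp b M x j) = (∏ k, X (i k, i'' k)) * C (t i'' x * dtp b M x j) := by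
      intro x
      rw [C_mul, mul_assoc]
    rw [Finset.sum_congr rfl fun x _ => h3 x, Finset.sum_congr rfl fun x _ => h4 x,
      ← Finset.mul_sum, ← Finset.mul_sum, h2]
  · have h5 : ∀ j' : Fin b → Fin n, ldv M (C (t i j') * ∏ k, X (j' k, j k) :
        MvPolynomial (Fin n × Fin n) K₀) = C (t i j') * ldv M (∏ k, X (j' k, j k)) := by
      intro j'
      rw [mul_comm, ldv_mul_C, mul_comm]
    simp only [h5, ldv_prod, Finset.sum_mul, Finset.mul_sum]
    rw [Finset.sum_comm]
    refine Finset.sum_congr rfl fun x _ => Finset.sum_congr rfl fun j' _ => ?_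
    rw [mul_assoc]

theorem dr_eq_dtp {K : Type} [Field K] {r m : ℕ} (x : Matrix (Fin r) (Fin r) K) :
    Pool.Agent.Helper82.AHS.dr m x = dtp m x := by
  classical
  ext i j
  unfold Pool.Agent.Helper82.AHS.dr dtp
  rw [Matrix.sum_apply]
  refine Finset.sum_congr rfl fun s _ => ?_
  rw [Pool.Agent.Helper82.AHS.pwf_update]
  by_cases h : j = Function.update i s (j s)
  · rw [if_pos h]
    have h1 : ∏ b ∈ Finset.univ.erase s, (1 : Matrix (Fin r) (Fin r) K) (i b) (j b) = 1 := by
      refine Finset.prod_eq_one fun b hb => ?_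
      have h2 := congrFun h b
      rw [Function.update_of_ne (Finset.ne_of_mem_erase hb)] at h2
      rw [h2, Matrix.one_apply_eq]
    rw [h1, mul_one]
  · rw [if_neg h]
    obtain ⟨b, hb⟩ := Function.ne_iff.mp h
    have hbs : b ≠ s := by
      rintro rfl
      exact hb (by rw [Function.update_self])
    rw [Function.update_of_ne hbs] at hb
    have h1 : ∏ b ∈ Finset.univ.erase s, (1 : Matrix (Fin r) (Fin r) K) (i b) (j b) = 0 :=
      Finset.prod_eq_zero (Finset.mem_erase.mpr ⟨hbs, Finset.mem_univ b⟩)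
        (Matrix.one_apply_ne (fun h => hb h.symm))
    rw [h1, mul_zero]

theorem pw_eq_tp {K : Type} [Field K] {r m : ℕ} (x : Matrix (Fin r) (Fin r) K) :
    Pool.Agent.Helper82.AHS.pw m x = tp m x := rfl

theorem act_iff {K : Type} [Field K] {r m n : ℕ} (g : GL (Fin r) K)
    (t : Pool.Agent.Helper82.AHS.T r m n K) :
    Pool.Agent.Helper82.AHS.act g t = t ↔
      tp m (g : Matrix (Fin r) (Fin r) K) * t = t * tp n (g : Matrix (Fin r) (Fin r) K) := by
  rw [← fix_iff (g : Matrix (Fin r) (Fin r) K)
    ((Matrix.isUnit_iff_isUnit_det _).mp g.isUnit) t]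
  have h1 : ((g⁻¹ : GL (Fin r) K) : Matrix (Fin r) (Fin r) K) =
      (g : Matrix (Fin r) (Fin r) K)⁻¹ := Matrix.coe_units_inv g
  unfold Pool.Agent.Helper82.AHS.act
  rw [h1]
  rfl

theorem st_TNT : Pool.Agent.Helper21.TH.ST_TNT := by
  intro r m n Q t hQ hsym hkill K _ _ g hg hdet
  have : CharZero K := charZero_of_injective_algebraMap (algebraMap ℚ K).injective
  have hu : IsUnit Q.det := isUnit_iff_ne_zero.mpr hQ
  have hQ' : (Q.map (algebraMap ℚ K)).det ≠ 0 := by
    have h1 : (Q.map (algebraMap ℚ K)).det = algebraMap ℚ K Q.det :=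
      (RingHom.map_det (algebraMap ℚ K) Q).symm
    rw [h1]
    exact fun h => hQ ((map_eq_zero (algebraMap ℚ K)).mp h)
  have hsym' : (Q.map (algebraMap ℚ K)).transpose = -(Q.map (algebraMap ℚ K)) ∨
      (Q.map (algebraMap ℚ K)).transpose = Q.map (algebraMap ℚ K) := by
    rcases hsym with h | h
    · right
      rw [← Matrix.transpose_map, h]
    · left
      rw [← Matrix.transpose_map, h]
      ext i j
      simp
  obtain ⟨ε, hε, hε2⟩ : ∃ ε : ℚ, ε * ε = 1 ∧ Q.transpose = ε • Q := by
    rcases hsym with h | h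
    · exact ⟨1, by ring, by rw [h, one_smul]⟩
    · exact ⟨-1, by ring, by rw [h, neg_one_smul]⟩
  let I : Set (MvPolynomial (Fin r × Fin r) ℚ) :=
    (Submodule.span ℚ (Set.range fun ij : (Fin m → Fin r) × (Fin n → Fin r) =>
      tenEq t ij.1 ij.2) : Submodule ℚ (MvPolynomial (Fin r × Fin r) ℚ))
  have h1 : ∀ f ∈ I, ev (1 : Matrix (Fin r) (Fin r) K) f = 0 := by
    intro f hf
    induction hf using Submodule.span_induction with
    | mem x hx =>
      obtain ⟨ij, rfl⟩ := hx
      rw [ev_tenEq, tp_one, tp_one, Matrix.one_mul, Matrix.mul_one, sub_self]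
      rfl
    | zero => exact map_zero _
    | add x y _ _ hx hy => rw [map_add, hx, hy, add_zero]
    | smul c x _ hx =>
      rw [MvPolynomial.smul_eq_C_mul, map_mul, hx, mul_zero]
  have hL : ∀ M : Matrix (Fin r) (Fin r) ℚ, M.transpose * Q + Q * M = 0 →
      ∀ f ∈ I, ldv M f ∈ I := by
    intro M hM f hf
    have hd : dtp m M * t = t * dtp n M := by
      rw [← dr_eq_dtp, ← dr_eq_dtp]
      exact hkill M hM
    induction hf using Submodule.span_induction with
    | mem x hx =>
      obtain ⟨ij, rfl⟩ := hx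
      change ldv M (tenEq t ij.1 ij.2) ∈ I
      rw [ldv_tenEq M t hd]
      refine Submodule.sum_mem _ fun j' _ => ?_
      rw [mul_comm, ← smul_eq_C_mul]
      exact Submodule.smul_mem _ _ (Submodule.subset_span ⟨(ij.1, j'), rfl⟩)
    | zero =>
      rw [map_zero]
      exact Submodule.zero_mem _
    | add x y _ _ hx hy =>
      rw [map_add]
      exact Submodule.add_mem _ hx hy
    | smul c x _ hx =>
      rw [Derivation.map_smul]
      exact Submodule.smul_mem _ _ hx
  refine st_ISM K r (Q.map (algebraMap ℚ K))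
    {x | Pool.Agent.Helper82.AHS.act x (Pool.Agent.Helper82.AHS.up K t) =
      Pool.Agent.Helper82.AHS.up K t} hQ' hsym' ?_ ?_ g hg hdet
  · intro x hx y hy
    rw [Set.mem_ofPred_eq, act_iff] at hx hy ⊢
    have h2 : ((x * y : Matrix.GeneralLinearGroup (Fin r) K) : Matrix (Fin r) (Fin r) K) =
        (x : Matrix (Fin r) (Fin r) K) * (y : Matrix (Fin r) (Fin r) K) := rfl
    rw [h2, tp_mul, tp_mul, Matrix.mul_assoc, hy, ← Matrix.mul_assoc, hx, Matrix.mul_assoc]
  · intro s hs hs1
    rw [Set.mem_ofPred_eq, act_iff]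
    ext i j
    have h3 := isometry_vanish (K₀ := ℚ) two_ne_zero ε hε Q hu hε2 I h1 hL
      (s : Matrix (Fin r) (Fin r) K) hs hs1 (tenEq t i j)
      (Submodule.subset_span ⟨(i, j), rfl⟩)
    rw [ev_tenEq, Matrix.sub_apply] at h3
    exact sub_eq_zero.mp h3

end Pool.Agent.Helper84.D2

namespace Pool.Agent.Helper21.TH

theorem st_TNT : ST_TNT := Pool.Agent.Helper84.D2.st_TNT

end Pool.Agent.Helper21.TH
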